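import Pool.Agent.Q182.Porc5

/-!
# MP_38292b_an: the additive rule does not preserve the Young class LU

The definitions (`Represents`, `IsMetrizableSimplex`, `IsFiniteRep`, `IsAdditiveExtension`, `IsUSC`,
`IsLU`, `toE`) are in `Pool/Agent/Q182/Porc4.lean`.
-/

set_option autoImplicit false

open MeasureTheory

namespace Pool.Agent.Results.MP_38292b_an.AdditiveNotLU

open Pool.Agent.Q182.Porc

/-- **There are a metrizable Choquet simplex `K` in a locally convex Hausdorff space and a function
`f` with values in `{1, 2, 3, …, ∞}` on its extreme points which is of Young class `LU` (even upper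
semicontinuous), whose extension `F` by the additive rule is not of class `LU` on `K`.** -/
theorem result :
    ∃ (V : Type) (_ : AddCommGroup V) (_ : Module ℝ V) (_ : TopologicalSpace V)
      (_ : IsTopologicalAddGroup V) (_ : ContinuousSMul ℝ V) (_ : LocallyConvexSpace ℝ V)
      (_ : T2Space V) (_ : MeasurableSpace V) (_ : BorelSpace V)
      (K : Set V) (f : K.extremePoints ℝ → ℕ∞) (F : K → ℕ∞),
      IsMetrizableSimplex K ∧ K.Nonempty ∧ (∀ e, 1 ≤ f e) ∧
        IsUSC (fun e => toE (f e)) ∧ IsLU (fun e => toE (f e)) ∧
        IsAdditiveExtension K f F ∧ ¬ IsLU (fun x => toE (F x)) := by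
  refine ⟨E, inferInstance, inferInstance, inferInstance, inferInstance, inferInstance,
    inferInstance, inferInstance, inferInstance, inferInstance, K, f, F, simplex,
    ⟨_, iota_mem 0⟩, ?_, f_usc, ?_, F_ext, not_lu F_ext⟩
  · intro e
    unfold f
    split_ifs
    · exact le_rfl
    · norm_num
  · exact ⟨fun _ e => toE (f e), fun _ => f_usc, fun _ _ => le_rfl, fun _ => tendsto_const_nhds⟩

end Pool.Agent.Results.MP_38292b_an.AdditiveNotLU
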